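import Pool.Agent.P8H64.AC.Stm
import Pool.Agent.P8H64.OO.Rank

/-!
# Project AC, package ASC: associativity
-/

set_option autoImplicit false

open CategoryTheory AlgebraicGeometry

universe u v w

namespace Pool.Agent.P8H64.AC

open Pool.Agent.H914 Pool.Agent.H914.VarClass Pool.Agent.H914.VarClass.Obj Pool.Agent.W492.BB
  Pool.Agent.W550.Corr Pool.Agent.TH133 Pool.Agent.TH829.Prime Pool.Agent.TH829.Kim
  Pool.Agent.P8H64.OO

variable {k : Type u} [Field k] {𝒱 : VarClass k}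

/-- `X × (Y × Z) ⟶ (X × Y) × Z`. -/
noncomputable def asI (X Y Z : 𝒱.Obj) : X.prod (Y.prod Z) ⟶ (X.prod Y).prod Z :=
  Obj.lift (Obj.lift (fst X (Y.prod Z)) (snd X (Y.prod Z) ≫ fst Y Z)) (snd X (Y.prod Z) ≫ snd Y Z)

/-- `(X × Y) × Z ⟶ X × (Y × Z)`. -/
noncomputable def asJ (X Y Z : 𝒱.Obj) : (X.prod Y).prod Z ⟶ X.prod (Y.prod Z) :=
  Obj.lift (fst (X.prod Y) Z ≫ fst X Y) (Obj.lift (fst (X.prod Y) Z ≫ snd X Y) (snd (X.prod Y) Z))

lemma asI_asJ (X Y Z : 𝒱.Obj) : asI X Y Z ≫ asJ X Y Z = 𝟙 _ := by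
  apply prod_ext
  · simp [asI, asJ]
  · apply prod_ext <;> simp [asI, asJ]

lemma asJ_asI (X Y Z : 𝒱.Obj) : asJ X Y Z ≫ asI X Y Z = 𝟙 _ := by
  apply prod_ext
  · apply prod_ext <;> simp [asI, asJ]
  · simp [asI, asJ]

theorem asc : S_ASC := by
  intro k _ 𝒱 C _ _ X Y Z i
  have hz : ∀ (W : 𝒱.Obj) (x : C.A W), x - x ∈ numFam C W i := fun W x => by
    rw [sub_self]
    exact Submodule.zero_mem _
  refine rho_eq_of (C.pull (asJ X Y Z)).toLinearMap (C.pull (asI X Y Z)).toLinearMap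
    (fun x hx => C.pull_mem _ hx) (fun x hx => C.pull_mem _ hx)
    (fun x hx => num_adq.pull_mem _ hx) (fun x hx => num_adq.pull_mem _ hx) ?_ ?_
  · intro x _
    have e : (C.pull (asI X Y Z)).toLinearMap ((C.pull (asJ X Y Z)).toLinearMap x) = x := by
      change C.pull (asI X Y Z) (C.pull (asJ X Y Z) x) = x
      rw [← C.pull_comp, asI_asJ, C.pull_id]
    rw [e]
    exact hz _ x
  · intro x _
    have e : (C.pull (asJ X Y Z)).toLinearMap ((C.pull (asI X Y Z)).toLinearMap x) = x := by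
      change C.pull (asJ X Y Z) (C.pull (asI X Y Z) x) = x
      rw [← C.pull_comp, asJ_asI, C.pull_id]
    rw [e]
    exact hz _ x

end Pool.Agent.P8H64.AC
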