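import Pool.Agent.P8H64.AC.Stm
import Pool.Agent.P8H64.OO.Cell

/-!
# Project AC, package CEL: ranks of the product with a cellular variety
-/

set_option autoImplicit false
set_option linter.unusedSectionVars false

open CategoryTheory AlgebraicGeometry

universe u v w

namespace Pool.Agent.P8H64.AC

open Pool.Agent.H914 Pool.Agent.H914.VarClass Pool.Agent.H914.VarClass.Obj Pool.Agent.W492.BB
  Pool.Agent.W550.Corr Pool.Agent.TH133 Pool.Agent.TH829.Prime Pool.Agent.TH829.Kim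
  Pool.Agent.P8H64.OO

variable {k : Type u} [Field k] {𝒱 : VarClass k} {C : TheoryData.{u, v, 0} 𝒱 ℚ}
variable [hC : IsChowProj C] {X P : 𝒱.Obj}

lemma ind_zero0 {y c : C.A P} (h : HasDegree C (c * y) 0) {i j l : ℤ}
    (h1 : ∀ x ∈ C.gr X i, eA X c x ∈ C.gr (X.prod P) j)
    (h2 : ∀ x ∈ numFam C X i, eA X c x ∈ numFam C (X.prod P) j)
    (h3 : ∀ x ∈ C.gr (X.prod P) j, pA X y x ∈ C.gr X l)
    (h4 : ∀ x ∈ numFam C (X.prod P) j, pA X y x ∈ numFam C X l) (x : NumSpace C X i) :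
    indN (pA X y) h3 h4 (indN (eA X c) h1 h2 x) = 0 := by
  obtain ⟨x, rfl⟩ := cls_surj x
  rw [indN_cls, indN_cls, show (0 : NumSpace C X l) = cls 0 from rfl]
  refine cls_eq.2 ?_
  have e : pA X y (eA X c x.1) - ((0 : C.gr X l) : C.A X) = 0 := by
    rw [pA_ext, push_deg h, zero_smul, Submodule.coe_zero, sub_self]
  rw [e]
  exact Submodule.zero_mem _

lemma cls_sum {W : 𝒱.Obj} {i : ℤ} {r : ℕ} (z : C.gr W i) (B : Fin r → C.gr W i)
    (h : (z : C.A W) = ∑ s, (B s : C.A W)) : ∑ s, cls (B s) = cls z := by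
  have h1 : z = ∑ s, B s := by
    apply Subtype.ext
    rw [h, Submodule.coe_sum]
  rw [h1]
  change ∑ s, Submodule.mkQ _ (B s) = Submodule.mkQ _ (∑ s, B s)
  rw [map_sum]

theorem cel : S_CEL := by
  intro k _ 𝒱 C _ _ hfin X P n c hP i
  obtain ⟨a, b, hab, hst, hdg⟩ := hP
  have ha : ∀ s, a s ∈ C.gr P ((P.dim : ℤ) - c s) := fun s => (hab s).1
  have hb : ∀ s, b s ∈ C.gr P (c s) := fun s => (hab s).2
  let Φ : NumSpace C (X.prod P) i →ₗ[ℚ] (∀ s : Fin n, NumSpace C X (i - c s)) :=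
    LinearMap.pi fun s => indN (pA X (a s)) (pA_mem (ha s) (by omega)) (pA_num (ha s) (by omega))
  let Ψ : (∀ s : Fin n, NumSpace C X (i - c s)) →ₗ[ℚ] NumSpace C (X.prod P) i :=
    ∑ s, (indN (eA X (b s)) (eA_mem (hb s) (by omega)) (eA_num (hb s) (by omega))) ∘ₗ
      LinearMap.proj s
  have hdec : ∀ z : C.A (X.prod P), z = ∑ s, eA X (b s) (pA X (a s) z) := by
    intro z
    have e := comp_dg C z
    rw [hdg, comp_sum] at e
    simp only [comp_ext_right] at e
    exact e.symm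
  have hΨ : ∀ v, Ψ v = ∑ s, indN (eA X (b s)) (eA_mem (hb s) (by omega))
      (eA_num (hb s) (by omega)) (v s) := by
    intro v
    change (∑ s, (indN (eA X (b s)) _ _) ∘ₗ LinearMap.proj s) v = _
    rw [LinearMap.sum_apply]
    rfl
  have hΨΦ : ∀ z, Ψ (Φ z) = z := by
    intro z
    obtain ⟨z, rfl⟩ := cls_surj z
    rw [hΨ]
    exact cls_sum _ _ (hdec z.1)
  have hΦΨ : ∀ z, Φ (Ψ z) = z := by
    intro v
    rw [hΨ]
    funext t
    change indN (pA X (a t)) (pA_mem (ha t) (by omega)) (pA_num (ha t) (by omega)) _ = v t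
    rw [map_sum, Finset.sum_eq_single t]
    · rw [ind_deg (q := 1), one_smul]
      rw [ch_comm C]
      have := hst t t
      rwa [if_pos rfl] at this
    · intro s _ hs
      apply ind_zero0
      rw [ch_comm C]
      have := hst t s
      rwa [if_neg (Ne.symm hs)] at this
    · intro h
      exact absurd (Finset.mem_univ t) h
  have e : NumSpace C (X.prod P) i ≃ₗ[ℚ] (∀ s : Fin n, NumSpace C X (i - c s)) :=
    LinearEquiv.ofLinearMap Φ Ψ (LinearMap.ext hΦΨ) (LinearMap.ext hΨΦ)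
  have f1 : ∀ s, Module.Finite ℚ (NumSpace C X (i - c s)) := fun s => hfin X (i - c s)
  have g4 : ∀ s, Module.Free ℚ (NumSpace C X (i - c s)) := fun s => Module.Free.of_divisionRing ℚ _
  unfold OO.rho
  rw [LinearEquiv.finrank_eq e, Module.finrank_pi_fintype ℚ]

end Pool.Agent.P8H64.AC
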