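import Mathlib

/-!
# Sums over two projective spaces
-/

set_option autoImplicit false

open Finset

namespace Pool.Agent.P8H64.AC

/-- The operator `f ↦ f(i) + f(i - 1) + ⋯ + f(i - n)`. -/
def sop (n : ℕ) (f : ℤ → ℤ) (i : ℤ) : ℤ := ∑ s ∈ range (n + 1), f (i - s)

lemma sop_zero (f : ℤ → ℤ) (i : ℤ) : sop 0 f i = f i := by simp [sop]

lemma sop_succ (n : ℕ) (f : ℤ → ℤ) (i : ℤ) : sop (n + 1) f i = sop n f i + f (i - (n + 1)) := by
  rw [sop, sum_range_succ, sop]
  push_cast
  rfl

lemma sop_succ' (n : ℕ) (f : ℤ → ℤ) (i : ℤ) : sop (n + 1) f i = sop n f (i - 1) + f i := by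
  rw [sop, sum_range_succ', sop]
  congr 1
  · exact sum_congr rfl fun s _ => by push_cast; congr 1; ring
  · simp

lemma sop_add (n : ℕ) (f g : ℤ → ℤ) (i : ℤ) :
    sop n (fun j => f j + g j) i = sop n f i + sop n g i := sum_add_distrib

lemma sop_sub (n : ℕ) (f g : ℤ → ℤ) (i : ℤ) :
    sop n (fun j => f j - g j) i = sop n f i - sop n g i := sum_sub_distrib _ _

lemma sop_smul (n : ℕ) (c : ℤ) (f : ℤ → ℤ) (i : ℤ) : sop n (fun j => c * f j) i = c * sop n f i :=
  (mul_sum _ _ _).symm

lemma sop_shift (n : ℕ) (c : ℤ) (f : ℤ → ℤ) (i : ℤ) :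
    sop n (fun j => f (j - c)) i = sop n f (i - c) :=
  sum_congr rfl fun s _ => congrArg f (by ring)

lemma sop_comm (a b : ℕ) (f : ℤ → ℤ) (i : ℤ) : sop a (sop b f) i = sop b (sop a f) i := by
  unfold sop
  rw [sum_comm]
  exact sum_congr rfl fun s _ => sum_congr rfl fun t _ => congrArg f (by ring)

/-- Three products of two projective spaces give the motive `L ^ (a + 1) + L ^ (b + 1)`. -/
lemma sop_key (a b : ℕ) (f : ℤ → ℤ) (i : ℤ) :
    2 * sop (b + 1) (sop (a + 1) f) i - sop b (sop (a + 2) f) i - sop (b + 2) (sop a f) i =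
      f (i - (a + 1)) + f (i - (b + 1)) := by
  have h1 : sop (b + 2) (sop a f) i = sop (b + 1) (sop a f) i + sop a f (i - (b + 2)) := by
    rw [sop_succ (b + 1)]
    have e : i - (((b + 1 : ℕ) : ℤ) + 1) = i - (b + 2) := by push_cast; ring
    rw [e]
  have h2 : sop (b + 1) (sop (a + 1) f) i =
      sop (b + 1) (sop a f) i + sop (b + 1) f (i - (a + 1)) := by
    have : sop (a + 1) f = fun j => sop a f j + f (j - (a + 1)) := funext fun j => sop_succ a f j
    rw [this, sop_add, sop_shift]
  have h3 : sop b (sop (a + 2) f) i = sop b (sop (a + 1) f) i + sop b f (i - (a + 2)) := by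
    have : sop (a + 2) f = fun j => sop (a + 1) f j + f (j - (a + 2)) := by
      funext j
      rw [sop_succ (a + 1) f j]
      have e : j - (((a + 1 : ℕ) : ℤ) + 1) = j - (a + 2) := by push_cast; ring
      rw [e]
    rw [this, sop_add, sop_shift]
  have h4 : sop (b + 1) (sop (a + 1) f) i = sop b (sop (a + 1) f) i + sop (a + 1) f (i - (b + 1)) :=
    sop_succ b _ i
  have h5 : sop (b + 1) f (i - (a + 1)) = sop b f (i - (a + 2)) + f (i - (a + 1)) := by
    rw [sop_succ']
    congr 2
    ring
  have h6 : sop (a + 1) f (i - (b + 1)) = sop a f (i - (b + 2)) + f (i - (b + 1)) := by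
    rw [sop_succ']
    congr 2
    ring
  rw [h1, h3]
  linarith

/-- If all sums over products of two projective spaces of total dimension `k + l` vanish, then
`f (i - k) + f (i - l) = 0`. -/
lemma sop_comb (k l : ℕ) (f : ℤ → ℤ) (i : ℤ)
    (h : ∀ a b : ℕ, a + b = k + l → sop b (sop a f) i = 0) : f (i - k) + f (i - l) = 0 := by
  rcases k with _ | k
  · rcases l with _ | l
    · have := h 0 0 rfl
      rw [sop_zero, sop_zero] at this
      simp [this]
    · have h1 := h 0 (l + 1) (by ring)
      have h2 := h 1 l (by ring)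
      have e1 : sop (l + 1) (sop 0 f) i = sop l f i + f (i - (l + 1)) := by
        rw [show sop 0 f = f from funext fun j => sop_zero f j, sop_succ]
      have e2 : sop l (sop 1 f) i = sop l f i + sop l f (i - 1) := by
        have : sop 1 f = fun j => f j + f (j - 1) := by
          funext j
          rw [sop_succ 0, sop_zero]
          norm_num
        rw [this, sop_add, sop_shift]
      have e3 : sop (l + 1) (sop 0 f) i = sop l f (i - 1) + f i := by
        rw [show sop 0 f = f from funext fun j => sop_zero f j, sop_succ']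
      push_cast
      simp only [sub_zero]
      linarith
  · rcases l with _ | l
    · have h1 := h (k + 1) 0 rfl
      have h2 := h k 1 (by ring)
      rw [sop_zero] at h1
      have e1 := sop_succ k f i
      have e2 := sop_succ' k f i
      have e3 : sop 1 (sop k f) i = sop k f i + sop k f (i - 1) := by
        rw [sop_succ 0, sop_zero]
        norm_num
      push_cast
      simp only [sub_zero]
      linarith
    · have h1 := h (k + 1) (l + 1) rfl
      have h2 := h (k + 2) l (by ring)
      have h3 := h k (l + 2) (by ring)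
      have := sop_key k l f i
      rw [h1, h2, h3] at this
      push_cast
      linarith

/-- The version for two functions. -/
lemma sop_step (k l : ℕ) (f g : ℤ → ℤ) (i : ℤ)
    (h : ∀ a b : ℕ, a + b = k + l → sop b (sop a f) i = sop b (sop a g) i) :
    f (i - k) + f (i - l) = g (i - k) + g (i - l) := by
  have := sop_comb k l (fun j => f j - g j) i fun a b hab => by
    have e : sop a (fun j => f j - g j) = fun j => sop a f j - sop a g j :=
      funext fun j => sop_sub a f g j
    rw [e, sop_sub, h a b hab, sub_self]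
  linarith

end Pool.Agent.P8H64.AC
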