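import Pool.Agent.P8H64.OO.Pub

/-!
# Varieties with a cellular decomposition: definitions
-/

set_option autoImplicit false

open CategoryTheory AlgebraicGeometry

universe u v w

namespace Pool.Agent.P8H64.AC

open Pool.Agent.H914 Pool.Agent.H914.VarClass Pool.Agent.H914.VarClass.Obj Pool.Agent.W492.BB
  Pool.Agent.W550.Corr Pool.Agent.TH133 Pool.Agent.TH829.Prime

variable {k : Type u} [Field k] {𝒱 : VarClass k}

/-- The Chow motive of `P` is the sum of the motives `L ^ (c s)`, as for varieties with a cellular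
decomposition with cells of codimension `c s`: the diagonal is the sum of the external products
`a s × b s` of classes of complementary codimensions, `b s` of codimension `c s`, with the
intersection numbers `(a s, b t) = δ_{st}`. -/
def IsCellular (C : TheoryData.{u, v, 0} 𝒱 ℚ) (P : 𝒱.Obj) {n : ℕ} (c : Fin n → ℕ) : Prop :=
  ∃ a b : Fin n → C.A P, (∀ s, C.Deg ((P.dim : ℤ) - c s) (a s) ∧ C.Deg (c s) (b s)) ∧
    (∀ s t, HasDegree C (C.mul (a s) (b t)) (if s = t then 1 else 0)) ∧
    dg C P = ∑ s, C.ext (a s) (b s)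

/-- `P` has dimension `N` and the Chow motive `1 + L + ⋯ + L ^ N` of the projective space of
dimension `N`. -/
def IsProjectiveSpace (C : TheoryData.{u, v, 0} 𝒱 ℚ) (P : 𝒱.Obj) (N : ℕ) : Prop :=
  P.dim = N ∧ IsCellular C P fun s : Fin (N + 1) => (s : ℕ)

/-- `P` has dimension two and the Chow motive `1 + r L + L ^ 2`, as the projective plane blown up
`r - 1` times in rational points. -/
def IsSplitSurface (C : TheoryData.{u, v, 0} 𝒱 ℚ) (P : 𝒱.Obj) (r : ℕ) : Prop :=
  P.dim = 2 ∧ IsCellular C P fun s : Fin (r + 2) => if (s : ℕ) < r then 1 else 2 * ((s : ℕ) - r)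

end Pool.Agent.P8H64.AC
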