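import Pool.Agent.P8H64.AC.Stm

/-!
# Project AC, package DUAL: the ranks of complementary codimensions agree
-/

set_option autoImplicit false

open CategoryTheory AlgebraicGeometry

universe u v w

namespace Pool.Agent.P8H64.AC

open Pool.Agent.H914 Pool.Agent.H914.VarClass Pool.Agent.H914.VarClass.Obj Pool.Agent.W492.BB
  Pool.Agent.W550.Corr Pool.Agent.TH133 Pool.Agent.TH829.Prime Pool.Agent.P8H64.OO
  Pool.Agent.P8H64.ZO

set_option linter.unusedSectionVars false

section dual

variable {k : Type u} [Field k] {𝒱 : VarClass k} {C : TheoryData.{u, v, 0} 𝒱 ℚ}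
  [hC : IsChowProj C] [hN : NZ C] {X : 𝒱.Obj} {i j : ℤ}

omit hN in
lemma exists_inter (hij : i + j = X.dim) (a : C.gr X i) (b : C.gr X j) :
    ∃ q : ℚ, HasDegree C (C.mul (a : C.A X) (b : C.A X)) q := by
  refine exists_hasDegree ?_
  rw [← hij]
  exact C.mul_mem a.2 b.2

omit hN in
/-- The intersection number of two classes of complementary codimensions. -/
noncomputable def inter (hij : i + j = X.dim) (a : C.gr X i) (b : C.gr X j) : ℚ :=
  (exists_inter hij a b).choose

omit hN in
lemma inter_spec (hij : i + j = X.dim) (a : C.gr X i) (b : C.gr X j) :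
    HasDegree C (C.mul (a : C.A X) (b : C.A X)) (inter hij a b) :=
  (exists_inter hij a b).choose_spec

lemma inter_eq (hij : i + j = X.dim) (a : C.gr X i) (b : C.gr X j) {q : ℚ}
    (h : HasDegree C (C.mul (a : C.A X) (b : C.A X)) q) : inter hij a b = q :=
  hasDegree_uniq (hN.ne X) (inter_spec hij a b) h

variable (C) in
/-- The intersection pairing. -/
noncomputable def ipair (hij : i + j = X.dim) : C.gr X i →ₗ[ℚ] C.gr X j →ₗ[ℚ] ℚ :=
  LinearMap.mk₂ ℚ (inter hij)
    (fun a a' b => inter_eq hij _ _ (by
      have h := HasDegree.add (inter_spec hij a b) (inter_spec hij a' b)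
      rw [TheoryData.mul, TheoryData.mul, ← add_mul] at h
      exact h))
    (fun r a b => inter_eq hij _ _ (by
      have h := HasDegree.smul r (inter_spec hij a b)
      rw [TheoryData.mul, ← smul_mul_assoc] at h
      exact h))
    (fun a b b' => inter_eq hij _ _ (by
      have h := HasDegree.add (inter_spec hij a b) (inter_spec hij a b')
      rw [TheoryData.mul, TheoryData.mul, ← mul_add] at h
      exact h))
    (fun r a b => inter_eq hij _ _ (by
      have h := HasDegree.smul r (inter_spec hij a b)
      rw [TheoryData.mul, ← mul_smul_comm] at h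
      exact h))

lemma ipair_left (hij : i + j = X.dim) {a : C.gr X i} (ha : (a : C.A X) ∈ numFam C X i)
    (b : C.gr X j) : ipair C hij a b = 0 := by
  refine inter_eq hij _ _ ((mem_numFam.1 ha).2 b ?_)
  rw [← hij, add_sub_cancel_left]
  exact b.2

lemma ipair_right (hij : i + j = X.dim) (a : C.gr X i) {b : C.gr X j}
    (hb : (b : C.A X) ∈ numFam C X j) : ipair C hij a b = 0 := by
  refine inter_eq hij _ _ ?_
  have h := (mem_numFam.1 hb).2 a (by
    rw [← hij, add_sub_cancel_right]
    exact a.2)
  rw [TheoryData.mul, ch_comm C] at h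
  exact h

lemma mem_of_ipair (hij : i + j = X.dim) {a : C.gr X i}
    (h : ∀ b : C.gr X j, ipair C hij a b = 0) : (a : C.A X) ∈ numFam C X i := by
  refine mem_numFam.2 ⟨a.2, fun b hb => ?_⟩
  rw [← hij, add_sub_cancel_left] at hb
  have h1 := inter_spec hij a ⟨b, hb⟩
  have h2 : inter hij a ⟨b, hb⟩ = 0 := h ⟨b, hb⟩
  rw [h2] at h1
  exact h1

/-- The pairing with a fixed class modulo numerical equivalence. -/
noncomputable def ipairR (hij : i + j = X.dim) (a : C.gr X i) : NumSpace C X j →ₗ[ℚ] ℚ :=
  Submodule.liftQ _ (ipair C hij a) (fun _ hb => LinearMap.mem_ker.2 (ipair_right hij a hb))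

lemma ipairR_cls (hij : i + j = X.dim) (a : C.gr X i) (b : C.gr X j) :
    ipairR hij a (cls b) = ipair C hij a b := rfl

variable (C) in
/-- The pairing of classes with classes modulo numerical equivalence. -/
noncomputable def ipairL (hij : i + j = X.dim) : C.gr X i →ₗ[ℚ] Module.Dual ℚ (NumSpace C X j) where
  toFun a := ipairR hij a
  map_add' a a' := by
    apply LinearMap.ext
    intro y
    obtain ⟨b, rfl⟩ := cls_surj y
    rw [LinearMap.add_apply, ipairR_cls, ipairR_cls, ipairR_cls, map_add, LinearMap.add_apply]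
  map_smul' r a := by
    apply LinearMap.ext
    intro y
    obtain ⟨b, rfl⟩ := cls_surj y
    rw [LinearMap.smul_apply, ipairR_cls, ipairR_cls, map_smul, LinearMap.smul_apply,
      RingHom.id_apply]

variable (C) in
/-- The pairing modulo numerical equivalence. -/
noncomputable def npair (hij : i + j = X.dim) :
    NumSpace C X i →ₗ[ℚ] Module.Dual ℚ (NumSpace C X j) :=
  Submodule.liftQ _ (ipairL C hij) (by
    intro a ha
    rw [LinearMap.mem_ker]
    apply LinearMap.ext
    intro y
    obtain ⟨b, rfl⟩ := cls_surj y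
    exact ipair_left hij ha b)

lemma npair_cls (hij : i + j = X.dim) (a : C.gr X i) (b : C.gr X j) :
    npair C hij (cls a) (cls b) = ipair C hij a b := rfl

lemma npair_injective (hij : i + j = X.dim) : Function.Injective (npair C hij) := by
  rw [← LinearMap.ker_eq_bot, LinearMap.ker_eq_bot']
  intro x hx
  obtain ⟨a, rfl⟩ := cls_surj x
  refine (Submodule.Quotient.mk_eq_zero _).2 ?_
  refine mem_of_ipair hij (fun b => ?_)
  rw [← npair_cls, hx]
  rfl

lemma rho_le (hfin : IsFin C) (hij : i + j = X.dim) : rho C X i ≤ rho C X j := by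
  haveI := hfin X i
  haveI := hfin X j
  have h := LinearMap.finrank_le_finrank_of_injective (npair_injective (C := C) hij)
  rw [Subspace.dual_finrank_eq] at h
  exact h

end dual

/-- Package DUAL. -/
theorem dual : S_DUAL.{u, v} := by
  intro k _ 𝒱 C _ _ hfin X i j hij
  exact le_antisymm (rho_le hfin hij) (rho_le hfin (by rw [add_comm]; exact hij))

end Pool.Agent.P8H64.AC
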