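import Pool.Agent.P8H64.AC.Defs

/-!
# Almost invariant numbers
-/

set_option autoImplicit false

universe u v w

namespace Pool.Agent.P8H64.AC

open Pool.Agent.H914 Pool.Agent.H914.VarClass

variable {k : Type u} [Field k] {𝒱 : VarClass k}

/-- The number `φ` is almost invariant under the relation `R` in dimension `D`: for `R`-equivalent
varieties `Z` and `W` of dimension `D`, the quotient of `φ(W)` and `φ(Z)` tends to one as
`φ(Z)` tends to infinity, uniformly in `Z` and `W`. In other words, for every `ε > 0` there is a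
constant `B` such that `|φ(Z) - φ(W)| ≤ ε |φ(Z)| + B`. -/
def AlmostInvariant (R : 𝒱.Obj → 𝒱.Obj → Prop) (φ : 𝒱.Obj → ℤ) (D : ℕ) : Prop :=
  ∀ ε : ℝ, 0 < ε → ∃ B : ℝ, ∀ Z W : 𝒱.Obj, R Z W → Z.dim = D →
    |(φ Z : ℝ) - φ W| ≤ ε * |(φ Z : ℝ)| + B

end Pool.Agent.P8H64.AC
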