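import Pool.Agent.P8H64.AC.Rad
import Pool.Agent.P8H64.AC.Pub

/-!
# Every single rank decides
-/

set_option autoImplicit false

open CategoryTheory AlgebraicGeometry Module

universe u v w

namespace Pool.Agent.P8H64.AC

open Pool.Agent.H914 Pool.Agent.H914.VarClass Pool.Agent.H914.VarClass.Obj Pool.Agent.W492.BB
  Pool.Agent.W550.Corr Pool.Agent.TH133 Pool.Agent.TH829.Prime Pool.Agent.TH829.Kim
  Pool.Agent.P8H64.OO

/-- The leading coefficient is determined up to `o(1)`. -/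
lemma eq_of_almost {p p' c c' : ℤ} (S : ℕ → Prop) (hS : ∀ n, ∃ r, n ≤ r ∧ S r)
    (h : ∀ ε : ℝ, 0 < ε → ∃ B : ℝ, ∀ r : ℕ, S r →
      |((c + r * p : ℤ) : ℝ) - ((c' + r * p' : ℤ) : ℝ)| ≤ ε * |((c + r * p : ℤ) : ℝ)| + B) :
    p = p' := by
  by_contra hne
  have h1 : (1 : ℝ) ≤ |(p : ℝ) - p'| := by
    have : (1 : ℤ) ≤ |p - p'| := Int.one_le_abs (sub_ne_zero.2 hne)
    exact_mod_cast this
  obtain ⟨B, hB⟩ := h (1 / (2 * (|(p : ℝ)| + 1))) (by positivity)
  obtain ⟨n, hn⟩ := exists_nat_gt (2 * (|(c : ℝ) - c'| + |(c : ℝ)| + B))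
  obtain ⟨r, hr, hSr⟩ := hS n
  have h2 := hB r hSr
  push_cast at h2
  have hr' : (n : ℝ) ≤ r := by exact_mod_cast hr
  have hr0 : (0 : ℝ) ≤ r := Nat.cast_nonneg r
  have h3 : (r : ℝ) * |(p : ℝ) - p'| ≤ |(c : ℝ) + r * p - (c' + r * p')| + |(c : ℝ) - c'| := by
    have e : (r : ℝ) * ((p : ℝ) - p') = ((c : ℝ) + r * p - (c' + r * p')) - (c - c') := by ring
    rw [← abs_of_nonneg hr0, ← abs_mul, abs_of_nonneg hr0, e]
    exact abs_sub _ _
  have h4 : |(c : ℝ) + r * p| ≤ |(c : ℝ)| + r * |(p : ℝ)| := by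
    refine (abs_add_le _ _).trans ?_
    rw [abs_mul, abs_of_nonneg hr0]
  have hε : (0 : ℝ) < 1 / (2 * (|(p : ℝ)| + 1)) := by positivity
  have h5 : 1 / (2 * (|(p : ℝ)| + 1)) * |(c : ℝ) + r * p| ≤ |(c : ℝ)| + r / 2 := by
    have h6 : 1 / (2 * (|(p : ℝ)| + 1)) ≤ 1 := by
      rw [div_le_one (by positivity)]
      nlinarith [abs_nonneg (p : ℝ)]
    have h7 : 1 / (2 * (|(p : ℝ)| + 1)) * |(p : ℝ)| ≤ 1 / 2 := by
      rw [div_mul_eq_mul_div, one_mul, div_le_div_iff₀ (by positivity) (by norm_num)]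
      nlinarith [abs_nonneg (p : ℝ)]
    calc 1 / (2 * (|(p : ℝ)| + 1)) * |(c : ℝ) + r * p|
        ≤ 1 / (2 * (|(p : ℝ)| + 1)) * (|(c : ℝ)| + r * |(p : ℝ)|) :=
          mul_le_mul_of_nonneg_left h4 hε.le
      _ = 1 / (2 * (|(p : ℝ)| + 1)) * |(c : ℝ)| + r * (1 / (2 * (|(p : ℝ)| + 1)) * |(p : ℝ)|) := by
          ring
      _ ≤ 1 * |(c : ℝ)| + r * (1 / 2) := by gcongr
      _ = |(c : ℝ)| + r / 2 := by ring
  have h8 : (r : ℝ) ≤ r * |(p : ℝ) - p'| := by nlinarith
  linarith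

variable {k : Type u} [Field k] {𝒱 : VarClass k} {C : TheoryData.{u, v, 0} 𝒱 ℚ}
  [hC : IsChowProj C] [hN : NZ C] {P : ℕ → 𝒱.Obj}

lemma sum_split (r : ℕ) (g : ℕ → ℕ) :
    ∑ s : Fin (r + 2), g (if (s : ℕ) < r then 1 else 2 * ((s : ℕ) - r)) =
      g 0 + r * g 1 + g 2 := by
  rw [Fin.sum_univ_castSucc, Fin.sum_univ_castSucc]
  have h1 : ∀ s : Fin r, g (if ((s.castSucc.castSucc : Fin (r + 2)) : ℕ) < r then 1 else
      2 * (((s.castSucc.castSucc : Fin (r + 2)) : ℕ) - r)) = g 1 := by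
    intro s
    rw [if_pos]
    simp
  rw [Finset.sum_congr rfl fun s _ => h1 s]
  simp
  ring

section main

variable (hcore : S_CORE.{u + 1, v}) (hpos : S_POS.{u + 1, v}) (hcel : S_CEL.{u, v})
  (hasc : S_ASC.{u, v}) (hdual : S_DUAL.{u, v}) (hreg : IsRegular C) (hfin : IsFin C)
  (hP : Spaces C P)

include hcel hfin in
lemma rho_split (X S : 𝒱.Obj) (r : ℕ) (hS : IsSplitSurface C S r) (i : ℤ) :
    (Pool.Agent.P8H64.OO.rho C (X.prod S) i : ℤ) = (Pool.Agent.P8H64.OO.rho C X i +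
      Pool.Agent.P8H64.OO.rho C X (i - 2) : ℤ) + r * Pool.Agent.P8H64.OO.rho C X (i - 1) := by
  rw [hcel k 𝒱 C hfin X S (r + 2) _ hS.2 i,
    sum_split r fun n => Pool.Agent.P8H64.OO.rho C X (i - n)]
  push_cast
  rw [sub_zero]
  ring

include hcore hpos hcel hasc hdual hreg hfin hP

/-- The equality of the ranks of the products with all products of two projective spaces of total
dimension `m + l` suffices. -/
lemma numIso_of_sums {X Y : 𝒱.Obj} {d : ℕ} (hX : X.dim = d) (hY : Y.dim = d) (m l : ℕ)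
    (h1 : ∀ a b : ℕ, a + b = m + l → sop b (sop a (ff C X X)) (d + m) =
      sop b (sop a (ff C X Y)) (d + m))
    (h2 : ∀ a b : ℕ, a + b = m + l → sop b (sop a (ff C X Y)) (d + m) =
      sop b (sop a (ff C Y Y)) (d + m)) : NumIso C X Y := by
  have step : ∀ f g : ℤ → ℤ, (∀ a b : ℕ, a + b = m + l → sop b (sop a f) (d + m) =
      sop b (sop a g) (d + m)) → f d + f (d + m - l) = g d + g (d + m - l) := by
    intro f g h
    have := sop_comb m l (fun j => f j - g j) (d + m) fun a b hab => by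
      have e : sop a (fun j => f j - g j) = fun j => sop a f j - sop a g j :=
        funext fun j => sop_sub a f g j
      rw [e, sop_sub, h a b hab, sub_self]
    simp only [add_sub_cancel_right] at this
    linarith
  obtain ⟨e, he⟩ : ∃ e : ℕ, (m : ℤ) - l = e ∨ (m : ℤ) - l = -e := by
    rcases le_total l m with h | h
    · exact ⟨m - l, Or.inl (by omega)⟩
    · exact ⟨l - m, Or.inr (by omega)⟩
  have hd : ∀ U W : 𝒱.Obj, U.dim = d → W.dim = d → ff C U W (d + m - l) = ff C U W (d + e) := by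
    intro U W hU hW
    rcases he with he | he
    · congr 1
      linarith
    · exact ff_dual hdual hfin hU hW (by linarith)
  have s1 := step _ _ h1
  have s2 := step _ _ h2
  rw [hd X X hX hX, hd X Y hX hY] at s1
  rw [hd X Y hX hY, hd Y Y hY hY] at s2
  have hzero : ff C X X d + ff C X X (d + e) + (ff C Y Y d + ff C Y Y (d + e)) -
      2 * (ff C X Y d + ff C X Y (d + e)) = 0 := by linarith
  have r1 := rad_top hpos hcel hasc hdual hreg hfin hP hX hY hX e hzero
  have r2 := rad_top hpos hcel hasc hdual hreg hfin hP hX hY hY e hzero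
  rw [ff_comm Y X] at r2
  refine (core_num hcore hreg hfin (X := X) (Y := Y) (by rw [hX, hY])).2.1 ?_
  rw [hX, hY]
  have r1' : Pool.Agent.P8H64.OO.rho C (X.prod X) d = Pool.Agent.P8H64.OO.rho C (X.prod Y) d := by
    exact Nat.cast_injective (R := ℤ) r1
  have r2' : Pool.Agent.P8H64.OO.rho C (X.prod Y) d = Pool.Agent.P8H64.OO.rho C (Y.prod Y) d := by
    exact Nat.cast_injective (R := ℤ) r2
  rw [r1', ← r2']
  ring

variable {R : 𝒱.Obj → 𝒱.Obj → Prop} (hR : IsStable R)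

include hR

/-- If `ρ_i` is invariant in dimension `D` then `R`-equivalent varieties of dimension at most
`min(i, D - i)` have isomorphic numerical motives. -/
theorem numIso_of_rank (D i : ℕ)
    (h : ∀ Z W : 𝒱.Obj, R Z W → Z.dim = D →
      Pool.Agent.P8H64.OO.rho C Z i = Pool.Agent.P8H64.OO.rho C W i)
    {X Y : 𝒱.Obj} (hXY : R X Y) (h1 : X.dim ≤ i) (h2 : X.dim + i ≤ D) : NumIso C X Y := by
  obtain ⟨d, hd⟩ : ∃ d : ℕ, X.dim = d := ⟨_, rfl⟩
  have hd' : Y.dim = d := by rw [← hR.dim_eq hXY, hd]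
  rw [hd] at h1 h2
  obtain ⟨m, rfl⟩ := Nat.exists_eq_add_of_le h1
  obtain ⟨l, rfl⟩ := Nat.exists_eq_add_of_le h2
  refine numIso_of_sums hcore hpos hcel hasc hdual hreg hfin hP hd hd' m l (fun a b hab => ?_)
    fun a b hab => ?_
  · rw [← rho_two hcel hfin hP, ← rho_two hcel hfin hP]
    have := h _ _ (hR.prod (hR.prod (hR.prod (hR.equivalence.refl X) hXY)
      (hR.equivalence.refl (P a))) (hR.equivalence.refl (P b))) (by
        simp only [dim_prod, (hP.proj _).1, hd]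
        omega)
    push_cast at this
    exact congrArg Nat.cast this
  · rw [← rho_two hcel hfin hP, ← rho_two hcel hfin hP]
    have := h _ _ (hR.prod (hR.prod (hR.prod hXY (hR.equivalence.refl Y))
      (hR.equivalence.refl (P a))) (hR.equivalence.refl (P b))) (by
        simp only [dim_prod, (hP.proj _).1, hd, hd']
        omega)
    push_cast at this
    exact congrArg Nat.cast this

/-- It suffices that `ρ_i` is almost invariant in dimension `D`, for the varieties of dimension less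
than `min(i, D - i)`. -/
theorem numIso_of_almost (hS : ∀ r : ℕ, ∃ s, r ≤ s ∧ ∃ S : 𝒱.Obj, IsSplitSurface C S s) (D i : ℕ)
    (h : AlmostInvariant R (fun Z => (Pool.Agent.P8H64.OO.rho C Z i : ℤ)) D)
    {X Y : 𝒱.Obj} (hXY : R X Y) (h1 : X.dim < i) (h2 : X.dim + i < D) : NumIso C X Y := by
  obtain ⟨d, hd⟩ : ∃ d : ℕ, X.dim = d := ⟨_, rfl⟩
  have hd' : Y.dim = d := by rw [← hR.dim_eq hXY, hd]
  rw [hd] at h1 h2
  obtain ⟨m, rfl⟩ := Nat.exists_eq_add_of_lt h1
  obtain ⟨l, rfl⟩ := Nat.exists_eq_add_of_lt h2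
  have key : ∀ Z W : 𝒱.Obj, R Z W → Z.dim = 2 * d + m + l →
      Pool.Agent.P8H64.OO.rho C Z ((d : ℤ) + m) = Pool.Agent.P8H64.OO.rho C W ((d : ℤ) + m) := by
    intro Z W hZW hZ
    have := eq_of_almost (p := Pool.Agent.P8H64.OO.rho C Z ((d : ℤ) + m))
      (p' := Pool.Agent.P8H64.OO.rho C W ((d : ℤ) + m))
      (c := Pool.Agent.P8H64.OO.rho C Z ((d : ℤ) + m + 1) +
        Pool.Agent.P8H64.OO.rho C Z ((d : ℤ) + m - 1))
      (c' := Pool.Agent.P8H64.OO.rho C W ((d : ℤ) + m + 1) +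
        Pool.Agent.P8H64.OO.rho C W ((d : ℤ) + m - 1))
      (fun s => ∃ S : 𝒱.Obj, IsSplitSurface C S s) hS (fun ε hε => by
        obtain ⟨B, hB⟩ := h ε hε
        refine ⟨B, fun r hr => ?_⟩
        obtain ⟨S, hS⟩ := hr
        have h3 := hB _ _ (hR.prod hZW (hR.equivalence.refl S)) (by
          rw [dim_prod, hZ, hS.1]
          omega)
        simp only [rho_split hcel hfin _ S r hS] at h3
        have e1 : ((d + m + 1 : ℕ) : ℤ) = (d : ℤ) + m + 1 := by push_cast; ring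
        have e2 : (d : ℤ) + m + 1 - 2 = (d : ℤ) + m - 1 := by ring
        have e3 : (d : ℤ) + m + 1 - 1 = (d : ℤ) + m := by ring
        rw [e1, e2, e3] at h3
        exact h3)
    exact_mod_cast this
  refine numIso_of_sums hcore hpos hcel hasc hdual hreg hfin hP hd hd' m l (fun a b hab => ?_)
    fun a b hab => ?_
  · rw [← rho_two hcel hfin hP, ← rho_two hcel hfin hP]
    exact congrArg Nat.cast (key _ _ (hR.prod (hR.prod (hR.prod (hR.equivalence.refl X) hXY)
      (hR.equivalence.refl (P a))) (hR.equivalence.refl (P b))) (by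
        simp only [dim_prod, (hP.proj _).1, hd]
        omega))
  · rw [← rho_two hcel hfin hP, ← rho_two hcel hfin hP]
    exact congrArg Nat.cast (key _ _ (hR.prod (hR.prod (hR.prod hXY (hR.equivalence.refl Y))
      (hR.equivalence.refl (P a))) (hR.equivalence.refl (P b))) (by
        simp only [dim_prod, (hP.proj _).1, hd, hd']
        omega))

end main

end Pool.Agent.P8H64.AC
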