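import Pool.Agent.P8H64.AC.Stm
import Pool.Agent.P8H88.AC.PosCore

/-! # Project AC, package POS -/

set_option autoImplicit false

open CategoryTheory

universe u v

namespace Pool.Agent.P8H64.AC

/-- **POS** -/
theorem pos : S_POS.{u, v} := by
  intro 𝒞 _ _ _ hfin hreg ι _ X c
  exact Pool.Agent.P8H88.AC.pos_core hfin hreg ι X c

end Pool.Agent.P8H64.AC
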