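import Pool.Agent.P8H64.AC.Every
import Pool.Agent.P8H64.AC.Pos
import Pool.Agent.P8H64.AC.Dual
import Pool.Agent.P8H64.AC.Asc
import Pool.Agent.P8H64.AC.Cel
import Pool.Agent.P8H64.OO.Final

/-!
# Every single rank decides: assembly
-/

set_option autoImplicit false

open CategoryTheory AlgebraicGeometry Module

universe u v w

namespace Pool.Agent.P8H64.AC

open Pool.Agent.H914 Pool.Agent.H914.VarClass Pool.Agent.H914.VarClass.Obj Pool.Agent.W492.BB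
  Pool.Agent.W550.Corr Pool.Agent.TH133 Pool.Agent.TH829.Prime Pool.Agent.TH829.Kim
  Pool.Agent.P8H64.OO

variable {k : Type u} [Field k] {𝒱 : VarClass k} {C : TheoryData.{u, v, 0} 𝒱 ℚ}
  [hC : IsChowProj C] {K : Type w} [Field K] [CharZero K]

theorem everyRank (H : WeilTheoryData.{u, v, w} C K) [hH : IsWeilComm H]
    (hP : ∀ N : ℕ, ∃ P : 𝒱.Obj, IsProjectiveSpace C P N) {R : 𝒱.Obj → 𝒱.Obj → Prop}
    (hR : IsStable R) :
    (∀ D i : ℕ, (∀ Z W : 𝒱.Obj, R Z W → Z.dim = D → rk C Z i = rk C W i) →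
      ∀ X Y : 𝒱.Obj, R X Y → X.dim ≤ i → X.dim + i ≤ D → NumIsom C X Y ∧
        (IsKimuraFinite C (ratFam C) X → IsKimuraFinite C (ratFam C) Y → ChowIso C X Y)) ∧
    ((∀ r : ℕ, ∃ s, r ≤ s ∧ ∃ S : 𝒱.Obj, IsSplitSurface C S s) →
      (∀ D i : ℕ, AlmostInvariant R (fun Z => (rk C Z i : ℤ)) D →
        ∀ X Y : 𝒱.Obj, R X Y → X.dim < i → X.dim + i < D → NumIsom C X Y ∧
          (IsKimuraFinite C (ratFam C) X → IsKimuraFinite C (ratFam C) Y → ChowIso C X Y)) ∧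
      ((∀ X Y : 𝒱.Obj, R X Y → NumIsom C X Y) ↔
        ∀ n : ℕ, ∃ D i : ℕ, n ≤ i ∧ n + i ≤ D ∧
          AlmostInvariant R (fun Z => (rk C Z i : ℤ)) D)) := by
  have := nz H
  have hcore : S_CORE.{u + 1, v} := Pool.Agent.P8H29.OO.core_main
  have hreg : IsRegular C := isRegular H
  have hfin : IsFin C := isFin H
  choose P hP using hP
  have hPs : Spaces C P := ⟨hP⟩
  simp only [rk_eq hfin]
  have conc : ∀ X Y : 𝒱.Obj, R X Y → NumIso C X Y → NumIsom C X Y ∧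
      (IsKimuraFinite C (ratFam C) X → IsKimuraFinite C (ratFam C) Y → ChowIso C X Y) :=
    fun X Y hXY h => ⟨(numIsom_iff (hR.dim_eq hXY)).2 h, fun hX hY =>
      lift k 𝒱 C (nz H).ne X Y (hR.dim_eq hXY) hX hY h⟩
  have halm : (∀ r : ℕ, ∃ s, r ≤ s ∧ ∃ S : 𝒱.Obj, IsSplitSurface C S s) →
      ∀ D i : ℕ, AlmostInvariant R (fun Z => (Pool.Agent.P8H64.OO.rho C Z i : ℤ)) D →
        ∀ X Y : 𝒱.Obj, R X Y → X.dim < i → X.dim + i < D → NumIsom C X Y ∧
          (IsKimuraFinite C (ratFam C) X → IsKimuraFinite C (ratFam C) Y → ChowIso C X Y) :=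
    fun hS D i h X Y hXY h1 h2 => conc X Y hXY
      (numIso_of_almost hcore pos cel asc dual hreg hfin hPs hR hS D i h hXY h1 h2)
  refine ⟨fun D i h X Y hXY h1 h2 => conc X Y hXY
    (numIso_of_rank hcore pos cel asc dual hreg hfin hPs hR D i h hXY h1 h2),
    fun hS => ⟨halm hS, fun h n => ⟨2 * n, n, le_rfl, by omega, fun ε hε => ⟨0, fun Z W hZW hZ => ?_⟩⟩,
      fun h X Y hXY => ?_⟩⟩
  · have h1 := (tfae_rel hR hcore hreg hfin).out 0 1
    have h2 := h1.1 (fun X Y hXY => (numIsom_iff (hR.dim_eq hXY)).1 (h X Y hXY)) Z W hZW n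
    beta_reduce
    rw [h2, sub_self, abs_zero, add_zero]
    positivity
  · obtain ⟨D, i, h1, h2, h3⟩ := h (X.dim + 1)
    exact (halm hS D i h3 X Y hXY (by omega) (by omega)).1

end Pool.Agent.P8H64.AC
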