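import Pool.Agent.P8H64.AC.Stm
import Pool.Agent.P8H64.ZO.Pts

/-!
# Project AC, package PTC: points of cellular varieties
-/

set_option autoImplicit false

open CategoryTheory AlgebraicGeometry

universe u v w

namespace Pool.Agent.P8H64.AC

open Pool.Agent.H914 Pool.Agent.H914.VarClass Pool.Agent.H914.VarClass.Obj Pool.Agent.W492.BB
  Pool.Agent.W550.Corr Pool.Agent.TH133 Pool.Agent.TH829.Prime Pool.Agent.TH829.Kim
  Pool.Agent.P8H64.OO Pool.Agent.P8H64.ZO

variable {k : Type u} [Field k] {𝒱 : VarClass k} {C : TheoryData.{u, v, 0} 𝒱 ℚ}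

lemma hasDegree_smul {X : 𝒱.Obj} {x : C.A X} {q : ℚ} (h : HasDegree C x q) (r : ℚ) :
    HasDegree C (r • x) (r * q) := by
  intro W
  constructor
  · rw [map_smul, map_smul, (h W).1, smul_smul]
  · rw [map_smul, map_smul, (h W).2, smul_smul]

lemma hasDegree_add {X : 𝒱.Obj} {x y : C.A X} {q r : ℚ} (h : HasDegree C x q)
    (h' : HasDegree C y r) : HasDegree C (x + y) (q + r) := by
  intro W
  constructor
  · rw [map_add, map_add, (h W).1, (h' W).1, add_smul]
  · rw [map_add, map_add, (h W).2, (h' W).2, add_smul]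

lemma hasDegree_sum {X : 𝒱.Obj} {ι : Type} (s : Finset ι) (x : ι → C.A X) (q : ι → ℚ)
    (h : ∀ i ∈ s, HasDegree C (x i) (q i)) : HasDegree C (∑ i ∈ s, x i) (∑ i ∈ s, q i) := by
  classical
  induction s using Finset.induction_on with
  | empty =>
    rw [Finset.sum_empty, Finset.sum_empty]
    intro W
    rw [map_zero, map_zero, map_zero, map_zero, zero_smul]
    exact ⟨rfl, rfl⟩
  | insert a s ha ih =>
    rw [Finset.sum_insert ha, Finset.sum_insert ha]
    exact hasDegree_add (h a (Finset.mem_insert_self a s))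
      (ih fun i hi => h i (Finset.mem_insert_of_mem hi))

theorem ptc : S_PTC := by
  intro k _ 𝒱 C hC hne P m c hP q f hf
  obtain ⟨a, b, hab, hst, hdg⟩ := hP
  have hle : ∀ s, c s ≤ P.dim := by
    intro s
    by_contra hcs
    push Not at hcs
    have h0 : a s = 0 := by
      have h1 : a s ∈ C.gr P ((P.dim : ℤ) - c s) := (hab s).1
      rw [C.gr_neg P _ (by omega)] at h1
      exact (Submodule.mem_bot _).1 h1
    have h2 := hst s s
    rw [if_pos rfl] at h2
    have h3 : HasDegree C (0 : C.A P) 0 := by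
      intro W
      rw [map_zero, map_zero, map_zero, map_zero, zero_smul]
      exact ⟨rfl, rfl⟩
    have h4 : C.mul (a s) (b s) = 0 := by
      change a s * b s = 0
      rw [h0, zero_mul]
    rw [h4] at h2
    have := hasDegree_uniq (hne P) h2 h3
    norm_num at this
  refine ⟨hle, fun n => ?_⟩
  have hit : ∀ (n i j : ℕ), i + j = P.dim → ∀ z : C.A P, C.Deg i z →
      C.push (iter f n) z = (q : ℚ) ^ (n * j) • z := by
    intro n
    induction n with
    | zero =>
      intro i j _ z _
      rw [zero_mul, pow_zero, one_smul]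
      exact C.push_id z
    | succ n ih =>
      intro i j hij z hz
      change C.push (iter f n ≫ f) z = _
      rw [C.push_comp, ih i j hij z hz, map_smul]
      have h1 : C.push f z = (q : ℚ) ^ j • z := hf i j hij z hz
      rw [h1, smul_smul, ← pow_add]
      congr 2
      ring
  have hgr : C.graph (iter f n) = ∑ s, (q : ℚ) ^ (n * (P.dim - c s)) • C.ext (a s) (b s) := by
    have e1 : Obj.lift (𝟙 P) (𝟙 P) ≫ prodMap (𝟙 P) (iter f n) = Obj.lift (𝟙 P) (iter f n) := by
      apply prod_ext <;> simp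
    have e2 : C.graph (iter f n) = C.push (prodMap (𝟙 P) (iter f n)) (dg C P) := by
      rw [dg, TheoryData.graph, TheoryData.graph, ← C.push_comp, e1]
    rw [e2, hdg, map_sum]
    refine Finset.sum_congr rfl fun s _ => ?_
    rw [push_ext, C.push_id, hit n (c s) (P.dim - c s) (by have := hle s; omega) (b s) (hab s).2]
    rw [TheoryData.ext, TheoryData.ext, map_smul, mul_smul_comm]
  have hpt := pts_spec (C := C) (iter f n)
  have h5 : HasDegree C (C.up (Obj.lift (𝟙 P) (𝟙 P)) (C.graph (iter f n)))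
      (∑ s, (q : ℚ) ^ (n * (P.dim - c s))) := by
    rw [hgr]
    change HasDegree C (C.pull (Obj.lift (𝟙 P) (𝟙 P)) _) _
    rw [map_sum]
    have h6 : ∀ s, C.pull (Obj.lift (𝟙 P) (𝟙 P)) ((q : ℚ) ^ (n * (P.dim - c s)) • C.ext (a s) (b s)) =
        (q : ℚ) ^ (n * (P.dim - c s)) • (a s * b s) := by
      intro s
      have e3 : Obj.lift (𝟙 P) (𝟙 P) ≫ fst P P = 𝟙 P := by simp
      have e4 : Obj.lift (𝟙 P) (𝟙 P) ≫ snd P P = 𝟙 P := by simp
      rw [map_smul, TheoryData.ext, map_mul, ← C.pull_comp, ← C.pull_comp, e3, e4, C.pull_id, C.pull_id]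
    simp only [h6]
    apply hasDegree_sum
    intro s _
    have h7 := hasDegree_smul (hst s s) ((q : ℚ) ^ (n * (P.dim - c s)))
    rw [if_pos rfl, mul_one] at h7
    exact h7
  exact hasDegree_uniq (hne P) hpt h5

end Pool.Agent.P8H64.AC
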