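import Pool.Agent.P8H64.AC.Stm
import Pool.Agent.P8H64.AC.Comb

/-!
# Every single rank decides: the form on the products with projective spaces
-/

set_option autoImplicit false

open CategoryTheory AlgebraicGeometry Module

universe u v w

namespace Pool.Agent.P8H64.AC

open Pool.Agent.H914 Pool.Agent.H914.VarClass Pool.Agent.H914.VarClass.Obj Pool.Agent.W492.BB
  Pool.Agent.W550.Corr Pool.Agent.TH133 Pool.Agent.TH829.Prime Pool.Agent.TH829.Kim
  Pool.Agent.P8H64.OO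

variable {k : Type u} [Field k] {𝒱 : VarClass k} {C : TheoryData.{u, v, 0} 𝒱 ℚ}
  [hC : IsChowProj C] [hN : NZ C]

variable (C) in
/-- The ranks of the product. -/
noncomputable def ff (X Y : 𝒱.Obj) (i : ℤ) : ℤ := rho C (X.prod Y) i

omit hN in
lemma ff_comm [NZ C] (X Y : 𝒱.Obj) : ff C X Y = ff C Y X := by
  funext i
  exact congrArg Nat.cast (rho_swap X Y i)

section pos

variable (hpos : S_POS.{u + 1, v}) (hreg : IsRegular C) (hfin : IsFin C)

include hpos hreg hfin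

/-- Positivity for the varieties of dimension `D`. -/
lemma pos_num (D : ℕ) (ι : Type) [Fintype ι] (X : ι → 𝒱.Obj) (hX : ∀ i, (X i).dim = D)
    (c : ι → ℤ) : 0 ≤ ∑ i, ∑ j, c i * c j * ff C (X i) (X j) D := by
  have hc := hpos (NM C D) (fun A B => hfin (A.X.prod B.X) D) (by
    intro A B f
    obtain ⟨f, rfl⟩ := cls_surj f
    obtain ⟨g, hg, h⟩ := hreg A.X B.X f.1 (by rw [A.hd, B.hd]) (by rw [A.hd]; exact f.2)
    rw [B.hd] at hg
    rw [A.hd] at h
    refine ⟨cls ⟨g, hg⟩, ?_⟩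
    rw [← Category.assoc]
    change compN A.hd A.hd (compN A.hd B.hd (cls f) (cls ⟨g, hg⟩)) (cls f) = cls f
    rw [compN_cls, compN_cls]
    exact cls_eq.2 h) ι (fun i => ⟨X i, hX i⟩) c
  exact hc

end pos

/-- The varieties `P N` have the motives of projective spaces. -/
structure Spaces (C : TheoryData.{u, v, 0} 𝒱 ℚ) (P : ℕ → 𝒱.Obj) : Prop where
  proj : ∀ N, IsProjectiveSpace C (P N) N

variable {P : ℕ → 𝒱.Obj}

section cell

variable (hcel : S_CEL.{u, v}) (hasc : S_ASC.{u, v}) (hfin : IsFin C) (hP : Spaces C P)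

include hcel hfin hP

lemma rho_proj (X : 𝒱.Obj) (N : ℕ) (i : ℤ) :
    (rho C (X.prod (P N)) i : ℤ) = sop N (fun j => (rho C X j : ℤ)) i := by
  rw [hcel k 𝒱 C hfin X (P N) (N + 1) _ (hP.proj N).2 i, sop]
  push_cast
  exact Fin.sum_univ_eq_sum_range (fun s : ℕ => (rho C X (i - s) : ℤ)) (N + 1)

/-- The products `((X × Y) × P^a) × P^b`. -/
lemma rho_two (X Y : 𝒱.Obj) (a b : ℕ) (i : ℤ) :
    (rho C (((X.prod Y).prod (P a)).prod (P b)) i : ℤ) = sop b (sop a (ff C X Y)) i := by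
  rw [rho_proj hcel hfin hP]
  congr 1
  funext j
  rw [rho_proj hcel hfin hP]
  rfl

include hasc

lemma ff_right (X Y : 𝒱.Obj) (N : ℕ) : ff C X (Y.prod (P N)) = sop N (ff C X Y) := by
  funext i
  rw [ff, hasc k 𝒱 C X Y (P N) i, rho_proj hcel hfin hP]
  rfl

lemma ff_left (X Y : 𝒱.Obj) (N : ℕ) : ff C (X.prod (P N)) Y = sop N (ff C X Y) := by
  rw [ff_comm, ff_right hcel hasc hfin hP, ff_comm]

variable (P) in
/-- The products `(X × P^a) × P^b`. -/
noncomputable def AA (X : 𝒱.Obj) (a b : ℕ) : 𝒱.Obj := (X.prod (P a)).prod (P b)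

lemma ff_AA (X Y : 𝒱.Obj) (a b a' b' : ℕ) : ff C (AA P X a b) (AA P Y a' b') =
    sop b' (sop a' (sop b (sop a (ff C X Y)))) := by
  rw [AA, AA, ff_right hcel hasc hfin hP, ff_right hcel hasc hfin hP, ff_left hcel hasc hfin hP,
    ff_left hcel hasc hfin hP]

end cell

/-- The coefficients `2, -1, -1`. -/
def kap : Fin 3 → ℤ := ![2, -1, -1]

/-- The first indices. -/
def ia (a : ℕ) : Fin 3 → ℕ := ![a + 1, a + 2, a]

/-- The second indices. -/
def ib (b : ℕ) : Fin 3 → ℕ := ![b + 1, b, b + 2]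

lemma ia_add_ib (a b : ℕ) (p : Fin 3) : ia a p + ib b p = a + b + 2 := by
  fin_cases p <;> simp [ia, ib] <;> ring

lemma kap_sum (a b : ℕ) (f : ℤ → ℤ) (i : ℤ) :
    ∑ p, kap p * sop (ib b p) (sop (ia a p) f) i = f (i - (a + 1)) + f (i - (b + 1)) := by
  rw [← sop_key a b f i, Fin.sum_univ_three]
  simp only [kap, ia, ib, Matrix.cons_val_zero, Matrix.cons_val_one, Matrix.cons_val_two,
    Matrix.head_cons, Matrix.tail_cons]
  ring

/-- Double sums. -/
lemma kap_sum₂ (a b a' b' : ℕ) (f : ℤ → ℤ) (i : ℤ) :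
    ∑ p, ∑ q, kap p * kap q * sop (ib b' q) (sop (ia a' q) (sop (ib b p) (sop (ia a p) f))) i =
      f (i - (a' + 1) - (a + 1)) + f (i - (a' + 1) - (b + 1)) +
        (f (i - (b' + 1) - (a + 1)) + f (i - (b' + 1) - (b + 1))) := by
  have h1 : ∀ p : Fin 3, ∑ q, kap p * kap q *
      sop (ib b' q) (sop (ia a' q) (sop (ib b p) (sop (ia a p) f))) i =
      kap p * sop (ib b p) (sop (ia a p) f) (i - (a' + 1)) +
        kap p * sop (ib b p) (sop (ia a p) f) (i - (b' + 1)) := by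
    intro p
    rw [← mul_add, ← kap_sum a' b' (sop (ib b p) (sop (ia a p) f)) i, Finset.mul_sum]
    exact Finset.sum_congr rfl fun q _ => by ring
  rw [Finset.sum_congr rfl fun p _ => h1 p, Finset.sum_add_distrib, kap_sum, kap_sum]

/-- The bilinear expansion. -/
lemma expand (G : Fin 3 × Fin 3 → Fin 3 × Fin 3 → ℤ) (τ κ : Fin 3 → ℤ) :
    ∑ i, ∑ j, (τ i.1 * κ i.2) * (τ j.1 * κ j.2) * G i j =
      ∑ r, ∑ s, τ r * τ s * ∑ p, ∑ q, κ p * κ q * G (r, p) (s, q) := by
  rw [Fintype.sum_prod_type]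
  refine Finset.sum_congr rfl fun r _ => ?_
  have h1 : ∀ p, ∑ j : Fin 3 × Fin 3, τ r * κ p * (τ j.1 * κ j.2) * G (r, p) j =
      ∑ s, ∑ q, τ r * κ p * (τ s * κ q) * G (r, p) (s, q) := fun p => Fintype.sum_prod_type _
  rw [Finset.sum_congr rfl fun p _ => h1 p, Finset.sum_comm]
  refine Finset.sum_congr rfl fun s _ => ?_
  rw [Finset.mul_sum]
  refine Finset.sum_congr rfl fun p _ => ?_
  rw [Finset.mul_sum]
  exact Finset.sum_congr rfl fun q _ => by ring

lemma eq_of_forall {A B D : ℤ} (hA : A = 0) (h : ∀ t : ℤ, 0 ≤ t * t * A + 2 * t * B + D) :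
    B = 0 := by
  subst hA
  by_contra hB
  rcases lt_or_gt_of_ne hB with hB | hB
  · have := h (|D| + 1)
    have h1 : D ≤ |D| := le_abs_self D
    have h2 : 0 ≤ |D| := abs_nonneg D
    nlinarith
  · have := h (-(|D| + 1))
    have h1 : D ≤ |D| := le_abs_self D
    have h2 : 0 ≤ |D| := abs_nonneg D
    nlinarith

section main

variable (hpos : S_POS.{u + 1, v}) (hcel : S_CEL.{u, v}) (hasc : S_ASC.{u, v})
  (hdual : S_DUAL.{u, v}) (hreg : IsRegular C) (hfin : IsFin C) (hP : Spaces C P)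

include hdual hfin in
lemma ff_dual {X Y : 𝒱.Obj} {d : ℕ} (hX : X.dim = d) (hY : Y.dim = d) {i j : ℤ}
    (h : i + j = 2 * d) : ff C X Y i = ff C X Y j := by
  rw [ff, ff, hdual k 𝒱 C hfin (X.prod Y) i j (by rw [dim_prod, hX, hY, h]; push_cast; ring)]

include hpos hcel hasc hdual hreg hfin hP

/-- If `X - Y` is isotropic for the form with the twist `1 + T^e`, it is in the radical. -/
lemma rad_step {X Y Z : 𝒱.Obj} {d : ℕ} (hX : X.dim = d) (hY : Y.dim = d) (hZ : Z.dim = d)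
    (e s : ℕ) (h : ff C X X d + ff C X X (d + e) + (ff C Y Y d + ff C Y Y (d + e)) -
      2 * (ff C X Y d + ff C X Y (d + e)) = 0) :
    ff C Z X (d + s) + ff C Z X (d + s + e) = ff C Z Y (d + s) + ff C Z Y (d + s + e) := by
  -- the varieties, the indices
  let V : Fin 3 → 𝒱.Obj := ![X, Y, Z]
  let α : Fin 3 → ℕ := ![s + e, s + e, 2 * s + e]
  let β : Fin 3 → ℕ := ![s, s, 0]
  set D : ℕ := d + (2 * s + e + 2) with hD
  have hdim : ∀ i : Fin 3 × Fin 3, (AA P (V i.1) (ia (α i.1) i.2) (ib (β i.1) i.2)).dim = D := by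
    rintro ⟨r, p⟩
    have h1 : (V r).dim = d := by
      fin_cases r
      · exact hX
      · exact hY
      · exact hZ
    have h2 : α r + β r = 2 * s + e := by
      fin_cases r <;> simp [α, β] <;> ring
    have h3 := ia_add_ib (α r) (β r) p
    simp only [AA, dim_prod, (hP.proj _).1, h1]
    rw [hD]
    omega
  have key : ∀ t : ℤ, 0 ≤ ∑ r, ∑ r', (![t, -t, 1] : Fin 3 → ℤ) r * (![t, -t, 1] : Fin 3 → ℤ) r' *
      (ff C (V r) (V r') (D - (α r' + 1) - (α r + 1)) +
        ff C (V r) (V r') (D - (α r' + 1) - (β r + 1)) +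
        (ff C (V r) (V r') (D - (β r' + 1) - (α r + 1)) +
          ff C (V r) (V r') (D - (β r' + 1) - (β r + 1)))) := by
    intro t
    have h1 := pos_num hpos hreg hfin D (Fin 3 × Fin 3)
      (fun i => AA P (V i.1) (ia (α i.1) i.2) (ib (β i.1) i.2)) hdim
      (fun i => (![t, -t, 1] : Fin 3 → ℤ) i.1 * kap i.2)
    rw [expand (fun i j => ff C (AA P (V i.1) (ia (α i.1) i.2) (ib (β i.1) i.2))
      (AA P (V j.1) (ia (α j.1) j.2) (ib (β j.1) j.2)) D)] at h1
    refine h1.trans_eq (Finset.sum_congr rfl fun r _ => Finset.sum_congr rfl fun r' _ => ?_)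
    rw [← kap_sum₂]
    simp only [ff_AA hcel hasc hfin hP]
  -- the entries
  have hYX : ff C Y X = ff C X Y := ff_comm Y X
  have hXZ : ff C X Z = ff C Z X := ff_comm X Z
  have hYZ : ff C Y Z = ff C Z Y := ff_comm Y Z
  have c1 : (D : ℤ) = d + (2 * s + e + 2) := by rw [hD]; push_cast; ring
  have e1 : ∀ U W : 𝒱.Obj, U.dim = d → W.dim = d →
      ff C U W (D - ((s + e : ℕ) + 1) - ((s + e : ℕ) + 1)) = ff C U W (d + e) := by
    intro U W hU hW
    exact ff_dual hdual hfin hU hW (by rw [c1]; push_cast; ring)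
  have e2 : ∀ U W : 𝒱.Obj,
      ff C U W (D - ((s + e : ℕ) + 1) - ((s : ℕ) + 1)) = ff C U W d := by
    intro U W
    congr 1
    rw [c1]
    push_cast
    ring
  have e3 : ∀ U W : 𝒱.Obj,
      ff C U W (D - ((s : ℕ) + 1) - ((s + e : ℕ) + 1)) = ff C U W d := by
    intro U W
    congr 1
    rw [c1]
    push_cast
    ring
  have e4 : ∀ U W : 𝒱.Obj,
      ff C U W (D - ((s : ℕ) + 1) - ((s : ℕ) + 1)) = ff C U W (d + e) := by
    intro U W
    congr 1
    rw [c1]
    ring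
  have f1 : ∀ U W : 𝒱.Obj, U.dim = d → W.dim = d →
      ff C U W (D - ((s + e : ℕ) + 1) - ((2 * s + e : ℕ) + 1)) = ff C U W (d + s + e) := by
    intro U W hU hW
    exact ff_dual hdual hfin hU hW (by rw [c1]; push_cast; ring)
  have f1' : ∀ U W : 𝒱.Obj, U.dim = d → W.dim = d →
      ff C U W (D - ((2 * s + e : ℕ) + 1) - ((s + e : ℕ) + 1)) = ff C U W (d + s + e) := by
    intro U W hU hW
    exact ff_dual hdual hfin hU hW (by rw [c1]; push_cast; ring)
  have f2 : ∀ U W : 𝒱.Obj,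
      ff C U W (D - ((s + e : ℕ) + 1) - ((0 : ℕ) + 1)) = ff C U W (d + s) := by
    intro U W
    congr 1
    rw [c1]
    push_cast
    ring
  have f2' : ∀ U W : 𝒱.Obj,
      ff C U W (D - ((0 : ℕ) + 1) - ((s + e : ℕ) + 1)) = ff C U W (d + s) := by
    intro U W
    congr 1
    rw [c1]
    push_cast
    ring
  have f3 : ∀ U W : 𝒱.Obj, U.dim = d → W.dim = d →
      ff C U W (D - ((s : ℕ) + 1) - ((2 * s + e : ℕ) + 1)) = ff C U W (d + s) := by
    intro U W hU hW
    exact ff_dual hdual hfin hU hW (by rw [c1]; push_cast; ring)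
  have f3' : ∀ U W : 𝒱.Obj, U.dim = d → W.dim = d →
      ff C U W (D - ((2 * s + e : ℕ) + 1) - ((s : ℕ) + 1)) = ff C U W (d + s) := by
    intro U W hU hW
    exact ff_dual hdual hfin hU hW (by rw [c1]; push_cast; ring)
  have f4 : ∀ U W : 𝒱.Obj,
      ff C U W (D - ((s : ℕ) + 1) - ((0 : ℕ) + 1)) = ff C U W (d + s + e) := by
    intro U W
    congr 1
    rw [c1]
    push_cast
    ring
  have f4' : ∀ U W : 𝒱.Obj,
      ff C U W (D - ((0 : ℕ) + 1) - ((s : ℕ) + 1)) = ff C U W (d + s + e) := by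
    intro U W
    congr 1
    rw [c1]
    push_cast
    ring
  have hB : 2 * (ff C Z X (d + s) + ff C Z X (d + s + e)) -
      2 * (ff C Z Y (d + s) + ff C Z Y (d + s + e)) = 0 := by
    refine eq_of_forall (A := 2 * (ff C X X d + ff C X X (d + e) + (ff C Y Y d + ff C Y Y (d + e)) -
      2 * (ff C X Y d + ff C X Y (d + e)))) (D := ff C Z Z (D - ((2 * s + e : ℕ) + 1) -
        ((2 * s + e : ℕ) + 1)) + ff C Z Z (D - ((2 * s + e : ℕ) + 1) - ((0 : ℕ) + 1)) +
        (ff C Z Z (D - ((0 : ℕ) + 1) - ((2 * s + e : ℕ) + 1)) +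
          ff C Z Z (D - ((0 : ℕ) + 1) - ((0 : ℕ) + 1)))) (by rw [h, mul_zero]) fun t => ?_
    have hk := key t
    rw [Fin.sum_univ_three, Fin.sum_univ_three, Fin.sum_univ_three, Fin.sum_univ_three] at hk
    simp only [V, α, β, Matrix.cons_val_zero, Matrix.cons_val_one, Matrix.cons_val_two,
      Matrix.head_cons, Matrix.tail_cons] at hk
    rw [e1 X X hX hX, e1 X Y hX hY, e1 Y X hY hX, e1 Y Y hY hY, e2 X X, e2 X Y, e2 Y X, e2 Y Y,
      e3 X X, e3 X Y, e3 Y X, e3 Y Y, e4 X X, e4 X Y, e4 Y X, e4 Y Y,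
      f1 Z X hZ hX, f1 Z Y hZ hY, f1' X Z hX hZ, f1' Y Z hY hZ,
      f2' X Z, f2' Y Z, f3 Z X hZ hX, f3 Z Y hZ hY, f3' X Z hX hZ, f3' Y Z hY hZ,
      f2 Z X, f2 Z Y, f4 Z X, f4 Z Y, f4' X Z, f4' Y Z, hYX, hXZ, hYZ] at hk
    refine hk.trans_eq ?_
    ring
  linarith

omit hpos hcel hasc hdual hreg hfin hP hN in
/-- There are no cycles of codimension greater than the dimension. -/
lemma ff_top {X Y : 𝒱.Obj} {d : ℕ} (hX : X.dim = d) (hY : Y.dim = d) {i : ℤ} (h : 2 * d < i) :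
    ff C X Y i = 0 := by
  have h0 : C.gr (X.prod Y) i = ⊥ := by
    rw [eq_bot_iff]
    intro a ha
    exact hC.gr_top _ i a ha (by rw [dim_prod, hX, hY]; push_cast; linarith)
  have : Subsingleton (C.gr (X.prod Y) i) := by
    rw [h0]
    infer_instance
  rw [ff, Pool.Agent.P8H64.OO.rho, Module.finrank_zero_of_subsingleton]
  rfl

lemma rad_top {X Y Z : 𝒱.Obj} {d : ℕ} (hX : X.dim = d) (hY : Y.dim = d) (hZ : Z.dim = d)
    (e : ℕ) (h : ff C X X d + ff C X X (d + e) + (ff C Y Y d + ff C Y Y (d + e)) -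
      2 * (ff C X Y d + ff C X Y (d + e)) = 0) : ff C Z X d = ff C Z Y d := by
  have hs : ∀ s : ℕ, ff C Z X (d + s) + ff C Z X (d + s + e) =
      ff C Z Y (d + s) + ff C Z Y (d + s + e) := fun s =>
    rad_step hpos hcel hasc hdual hreg hfin hP hX hY hZ e s h
  rcases Nat.eq_zero_or_pos e with rfl | he
  · have := hs 0
    simp only [Nat.cast_zero, add_zero] at this
    linarith
  · have : ∀ n s : ℕ, d < s + n → ff C Z X (d + s) = ff C Z Y (d + s) := by
      intro n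
      induction n with
      | zero =>
        intro s h
        rw [ff_top hZ hX (by omega), ff_top hZ hY (by omega)]
      | succ n ih =>
        intro s h
        have h1 := ih (s + e) (by omega)
        have h2 := hs s
        push_cast at h1
        rw [← add_assoc] at h1
        linarith
    simpa using this (d + 1) 0 (by omega)

end main

end Pool.Agent.P8H64.AC
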