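import Pool.Agent.P8H64.AC.Defs
import Pool.Agent.P8H64.OO.Conv
import Pool.Agent.P8H64.ZO.Defs

/-!
# Project AC: statements of the packages

Deliver `theorem x : S_X` in `Pool/Agent/P8H64/AC/<Part>.lean` (Pos, Dual, Cel, Asc, Ptc). `rho`,
`NumSpace`, `NZ`, `IsFin` are from `Pool/Agent/P8H64/OO/{Defs,Num,Main}.lean`.
-/

set_option autoImplicit false

open CategoryTheory AlgebraicGeometry

universe u v w

namespace Pool.Agent.P8H64.AC

open Pool.Agent.H914 Pool.Agent.H914.VarClass Pool.Agent.H914.VarClass.Obj Pool.Agent.W492.BB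
  Pool.Agent.W550.Corr Pool.Agent.TH133 Pool.Agent.TH829.Prime Pool.Agent.P8H64.OO
  Pool.Agent.P8H64.ZO

/-- **POS** (category theory, Mathlib and `Pool/Agent/P8H29/OO/Core.lean`). In a `ℚ`-linear category
with finite-dimensional `Hom`s which is von Neumann regular the form `dim Hom` is positive
semidefinite.

Proof. Let `τ(a, b)` be the trace of `u ↦ a ≫ u ≫ b` (`tau` in `P8H29/OO/Core.lean`): bilinear,
`τ(c, f ≫ g) = τ(c, g ≫ f)`, `τ(f ≫ g, c) = τ(g ≫ f, c)`, a natural number for idempotents,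
`τ(1, 1) = dim Hom`. Claim: for every list of triples (object `X_i`, idempotent `e_i` of `X_i`,
integer `c_i`) one has `∑ c_i c_j τ(e_i, e_j) ≥ 0`. Induction on `∑ (2 τ(e_i, e_i) - 1)`, the sum
over the `e_i ≠ 0` (for `e ≠ 0` one has `τ(e, e) ≥ 1`). (a) `e_i = 0` can be omitted. (b) If
`e_i = p + p'` with orthogonal idempotents `p, p' ≠ 0`, replace the triple by two triples with the
same `c_i`: the sum is unchanged by bilinearity, the measure decreases since
`τ(p, p) + τ(p', p') ≤ τ(e_i, e_i)` (all four `τ(p, p')`, … are `≥ 0`). (c) If there are `i ≠ j` and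
`f : X_i ⟶ X_j`, `g : X_j ⟶ X_i` with `f ≫ g = e_i`, `g ≫ f = e_j`, then `τ(e_i, ·) = τ(e_j, ·)` and
`τ(·, e_i) = τ(·, e_j)`: omit the `j`-th triple and replace `c_i` by `c_i + c_j`. (d) Otherwise
`τ(e_i, e_j) = 0` for `i ≠ j`: if `h = e_i ≫ h ≫ e_j ≠ 0`, `h ≫ h₀ ≫ h = h`, and
`g = e_j ≫ h₀ ≫ e_i ≫ …` as in CORE with `h ≫ g ≫ h = h`, `g ≫ h ≫ g = g`, then `h ≫ g` is a nonzero
idempotent below `e_i`, hence equal to `e_i` by the failure of (b), similarly `g ≫ h = e_j`, and (c)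
applies; so the sum is `∑ c_i ^ 2 τ(e_i, e_i) ≥ 0`.
(Other proofs are welcome, e.g. with the semisimple algebra `⨁ Hom(X_i, X_j)`.) -/
def S_POS : Prop := ∀ (𝒞 : Type u) [Category.{v} 𝒞] [Preadditive 𝒞] [Linear ℚ 𝒞],
  (∀ X Y : 𝒞, Module.Finite ℚ (X ⟶ Y)) →
  (∀ (X Y : 𝒞) (f : X ⟶ Y), ∃ g : Y ⟶ X, f ≫ g ≫ f = f) →
  ∀ (ι : Type) [Fintype ι] (X : ι → 𝒞) (c : ι → ℤ),
    0 ≤ ∑ i, ∑ j, c i * c j * (Module.finrank ℚ (X i ⟶ X j) : ℤ)

/-- **DUAL**. `ρ_i(X) = ρ_(dim X - i)(X)`.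

Proof. The intersection number `CH^i(X) × CH^(dim X - i)(X) → ℚ` (`exists_hasDegree`,
`hasDegree_uniq`; bilinear) induces a pairing of `NumSpace C X i` and `NumSpace C X (dim X - i)`
which is nondegenerate on both sides by the definition of numerical triviality (`NumTrivial`,
`numFam`, `mem_numFam`), and both spaces are finite-dimensional (`hfin`). So each embeds into the
dual of the other one (`LinearMap.finrank_le_finrank_of_injective`, `Subspace.dual_finrank_eq`). -/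
def S_DUAL : Prop := ∀ (k : Type u) [Field k] (𝒱 : VarClass k) (C : TheoryData.{u, v, 0} 𝒱 ℚ)
  [IsChowProj C] [NZ C], IsFin C → ∀ (X : 𝒱.Obj) (i j : ℤ), i + j = X.dim →
    rho C X i = rho C X j

/-- **CEL**. The ranks of the product with a cellular variety (generalises `S_CELL`,
`Pool/Agent/P8H64/OO/Cell.lean`).

Proof. The map `⨁_s CH^(i - c_s)(X) → CH^i(X × P)`, `(u_s) ↦ ∑ p^* u_s · q^* b_s`, has the inverse
`z ↦ (p_*(z · q^* a_s))_s`; as in `Cell.lean`. -/
def S_CEL : Prop := ∀ (k : Type u) [Field k] (𝒱 : VarClass k) (C : TheoryData.{u, v, 0} 𝒱 ℚ)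
  [IsChowProj C] [NZ C], IsFin C → ∀ (X P : 𝒱.Obj) (n : ℕ) (c : Fin n → ℕ), IsCellular C P c →
    ∀ i : ℤ, rho C (X.prod P) i = ∑ s, rho C X (i - c s)

/-- **ASC**. The rank of a triple product does not depend on the brackets.

Proof. `rho_eq_of` (`OO/Rank.lean`) for the pull-backs under the associativity isomorphism and its
inverse, as in `rho_swap`. -/
def S_ASC : Prop := ∀ (k : Type u) [Field k] (𝒱 : VarClass k) (C : TheoryData.{u, v, 0} 𝒱 ℚ)
  [IsChowProj C] [NZ C] (X Y Z : 𝒱.Obj) (i : ℤ),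
    rho C (X.prod (Y.prod Z)) i = rho C ((X.prod Y).prod Z) i

/-- **PTC**. The number of fixed points of the iterates of the Frobenius endomorphism of a cellular
variety.

Proof. Induction gives `(iter (F P) n)_* z = q^(n j) z` for `z` of degree `i`, `i + j = dim P`.
`C.graph f` is the push-forward of the diagonal under `𝟙 × f` (`prodMap (𝟙 P) f`), hence, by
`push_ext` (`TH133/Tens.lean`), it is `∑ ext (a s) (f_* (b s))`, for `f = iter (F P) n` equal to
`∑ q^(n (dim P - c s)) ext (a s) (b s)`; its pull-back to the diagonal is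
`∑ q^(n (dim P - c s)) a s * b s`, of degree `∑ q^(n (dim P - c s))` (degrees are additive and
unique, `pts` is the degree by `Classical.epsilon_spec`; see `Pts.lean`). Note `c s ≤ dim P`: otherwise
`a s = 0` (`gr_neg`) and `HasDegree C (a s * b s) 1` is impossible. -/
def S_PTC : Prop := ∀ (k : Type u) [Field k] (𝒱 : VarClass k) (C : TheoryData.{u, v, 0} 𝒱 ℚ)
  [IsChowProj C], (∀ X : 𝒱.Obj, (1 : C.A X) ≠ 0) → ∀ (P : 𝒱.Obj) (m : ℕ) (c : Fin m → ℕ),
    IsCellular C P c → ∀ (q : ℕ) (f : P ⟶ P),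
    (∀ i j : ℕ, i + j = P.dim → ∀ z : C.A P, C.Deg i z → C.down f z = (q : ℚ) ^ j • z) →
    (∀ s, c s ≤ P.dim) ∧ ∀ n : ℕ, pts C (iter f n) = ∑ s, (q : ℚ) ^ (n * (P.dim - c s))

end Pool.Agent.P8H64.AC
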